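import Pool.Agent.K1H53.BI.Plan5
import Pool.Agent.K1H78.BI3.U1

/-!
# Lattice sums (piece LS)
-/

set_option autoImplicit false

namespace Pool.Agent.K1H40.BI5

open Finset Pool.Agent.K1H53.BI

/-- `√(|x|² + 1)` -/
noncomputable def ds (x : V) : ℝ := Real.sqrt ((nsq x : ℝ) + 1)

lemma nrm_sq (x : V) : nrm x ^ 2 = nsq x := Real.sq_sqrt (Nat.cast_nonneg _)

lemma nrm_nonneg (x : V) : 0 ≤ nrm x := Real.sqrt_nonneg _

lemma ds_sq (x : V) : ds x ^ 2 = (nsq x : ℝ) + 1 := Real.sq_sqrt (by positivity)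

lemma ds_one (x : V) : 1 ≤ ds x := by
  unfold ds
  rw [Real.one_le_sqrt]
  have : (0 : ℝ) ≤ nsq x := Nat.cast_nonneg _
  linarith

lemma ds_pos (x : V) : 0 < ds x := lt_of_lt_of_le one_pos (ds_one x)

lemma nrm_le_ds (x : V) : nrm x ≤ ds x := Real.sqrt_le_sqrt (by linarith)

lemma nrm_add_le (a b : V) : nrm (a + b) ≤ nrm a + nrm b := Pool.Agent.K1H78.BI5.nrm_add_le a b

lemma ds_add (x y : V) : ds (x + y) ≤ ds x + ds y := by
  have h1 := nrm_add_le x y
  have h2 := nrm_le_ds x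
  have h3 := nrm_le_ds y
  have h4 := nrm_nonneg x
  have h5 := nrm_nonneg y
  have h6 := nrm_nonneg (x + y)
  have h7 : nrm x * nrm y ≤ ds x * ds y := mul_le_mul h2 h3 h5 (ds_pos x).le
  refine le_of_sq_le_sq ?_ (by linarith [ds_pos x, ds_pos y])
  rw [ds_sq, add_sq, ds_sq, ds_sq, ← nrm_sq (x + y), ← nrm_sq x, ← nrm_sq y]
  nlinarith

lemma shell_card (c : V) (S : Finset V) (k : ℕ) :
    (S.filter (fun y => nsq (y - c) + 1 < 4 ^ (k + 1))).card ≤ 64 * 8 ^ k := by
  have hsub : S.filter (fun y => nsq (y - c) + 1 < 4 ^ (k + 1)) ⊆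
      Finset.Icc (fun i : Fin 3 => c i - (2 ^ (k + 1) - 1)) (fun i => c i + (2 ^ (k + 1) - 1)) := by
    intro y hy
    rw [Finset.mem_filter] at hy
    have hi : ∀ i, |(y - c) i| ≤ 2 ^ (k + 1) - 1 := by
      intro i
      have h1 : ((y - c) i).natAbs ^ 2 ≤ nsq (y - c) := by
        unfold nsq
        exact Finset.single_le_sum (f := fun i => ((y - c) i).natAbs ^ 2) (fun _ _ => Nat.zero_le _)
          (Finset.mem_univ i)
      have h2 : ((y - c) i).natAbs ^ 2 < (2 ^ (k + 1)) ^ 2 := by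
        rw [← pow_mul, mul_comm (k + 1) 2, pow_mul]
        have : (2 : ℕ) ^ 2 = 4 := by norm_num
        rw [this]
        omega
      have h3 : ((y - c) i).natAbs < 2 ^ (k + 1) := lt_of_pow_lt_pow_left₀ 2 (by positivity) h2
      rw [Int.abs_eq_natAbs]
      have h4 : (((y - c) i).natAbs : ℤ) < 2 ^ (k + 1) := by exact_mod_cast h3
      linarith
    rw [Finset.mem_Icc]
    constructor
    · intro i
      have := (abs_le.1 (hi i)).1
      rw [Pi.sub_apply] at this
      dsimp only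
      linarith
    · intro i
      have := (abs_le.1 (hi i)).2
      rw [Pi.sub_apply] at this
      dsimp only
      linarith
  refine (Finset.card_le_card hsub).trans ?_
  rw [Pi.card_Icc, Fin.prod_univ_three]
  simp only [Int.card_Icc]
  have h1 : ∀ i : Fin 3, (c i + (2 ^ (k + 1) - 1) + 1 - (c i - (2 ^ (k + 1) - 1))).toNat ≤ 4 * 2 ^ k := by
    intro i
    have : c i + (2 ^ (k + 1) - 1) + 1 - (c i - (2 ^ (k + 1) - 1)) ≤ ((4 * 2 ^ k : ℕ) : ℤ) := by
      push_cast
      rw [pow_succ]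
      linarith
    exact Int.toNat_le.2 this
  calc _ ≤ (4 * 2 ^ k) * (4 * 2 ^ k) * (4 * 2 ^ k) := Nat.mul_le_mul (Nat.mul_le_mul (h1 0) (h1 1)) (h1 2)
    _ = 64 * (2 ^ 3) ^ k := by
        rw [← pow_mul]
        ring
    _ = 64 * 8 ^ k := by norm_num

lemma shell_bound {y c : V} {k : ℕ} (h : 4 ^ k ≤ nsq (y - c) + 1) : 1 / ds (y - c) ^ 3 ≤ 1 / (8 : ℝ) ^ k := by
  have h1 : ((2 : ℝ) ^ k) ^ 2 ≤ ds (y - c) ^ 2 := by
    rw [ds_sq, ← pow_mul, mul_comm k 2, pow_mul]
    norm_num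
    exact_mod_cast h
  have h2 : (2 : ℝ) ^ k ≤ ds (y - c) := by
    exact le_of_sq_le_sq h1 (ds_pos _).le
  have h3 : (8 : ℝ) ^ k ≤ ds (y - c) ^ 3 := by
    calc (8 : ℝ) ^ k = (2 ^ k) ^ 3 := by rw [← pow_mul, mul_comm k 3, pow_mul]; norm_num
      _ ≤ _ := pow_le_pow_left₀ (by positivity) h2 3
  exact one_div_le_one_div_of_le (by positivity) h3

lemma nsq_le {R : ℕ} {y c : V} (hy : y ∈ BR R) (hc : c ∈ BR R) : nsq (y - c) + 1 ≤ 4 * R ^ 2 + 1 := by
  rw [mem_BR] at hy hc
  have h1 : nrm y ≤ R := by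
    rw [nrm, ← Real.sqrt_sq (Nat.cast_nonneg (α := ℝ) R)]
    exact Real.sqrt_le_sqrt (by exact_mod_cast hy)
  have h2 : nrm (-c) ≤ R := by
    rw [Pool.Agent.K1H78.BI5.nrm_neg, nrm, ← Real.sqrt_sq (Nat.cast_nonneg (α := ℝ) R)]
    exact Real.sqrt_le_sqrt (by exact_mod_cast hc)
  have h3 : nrm (y - c) ≤ 2 * R := by
    rw [sub_eq_add_neg]
    linarith [nrm_add_le y (-c)]
  have h4 : (nsq (y - c) : ℝ) ≤ 4 * R ^ 2 := by
    rw [← nrm_sq]
    nlinarith [nrm_nonneg (y - c)]
  have h5 : nsq (y - c) ≤ 4 * R ^ 2 := by exact_mod_cast h4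
  omega

/-- the basic sum -/
lemma star {R : ℕ} (hR : 1 ≤ R) {c : V} (hc : c ∈ BR R) :
    ∑ y ∈ BR R, 1 / ds (y - c) ^ 3 ≤ 192 * (1 + Real.log R) := by
  obtain ⟨K, hK⟩ : ∃ K, K = Nat.log 4 (4 * R ^ 2 + 1) + 1 := ⟨_, rfl⟩
  have hmap : ∀ y ∈ BR R, Nat.log 4 (nsq (y - c) + 1) ∈ range K := by
    intro y hy
    rw [Finset.mem_range, hK]
    exact Nat.lt_succ_of_le (Nat.log_mono_right (nsq_le hy hc))
  rw [← Finset.sum_fiberwise_of_maps_to hmap]
  have hlog : (K : ℝ) ≤ 3 * (1 + Real.log R) := by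
    have hR0 : (1 : ℝ) ≤ R := by exact_mod_cast hR
    have h1 : 4 ^ (Nat.log 4 (4 * R ^ 2 + 1)) ≤ 4 * R ^ 2 + 1 := Nat.pow_log_le_self 4 (by positivity)
    have h2 : (4 : ℝ) ^ (Nat.log 4 (4 * R ^ 2 + 1)) ≤ 5 * (R : ℝ) ^ 2 := by
      have : (4 : ℝ) ^ (Nat.log 4 (4 * R ^ 2 + 1)) ≤ 4 * (R : ℝ) ^ 2 + 1 := by exact_mod_cast h1
      nlinarith
    have h3 := Real.log_le_log (by positivity) h2
    rw [Real.log_pow, Real.log_mul (by norm_num) (by positivity), Real.log_pow] at h3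
    have h4 : 1 ≤ Real.log 4 := by
      rw [Real.le_log_iff_exp_le (by norm_num)]
      linarith [Real.exp_one_lt_d9]
    have h5 : Real.log 5 ≤ 2 := by
      rw [Real.log_le_iff_le_exp (by norm_num)]
      have : Real.exp 2 = Real.exp 1 * Real.exp 1 := by rw [← Real.exp_add]; norm_num
      rw [this]
      nlinarith [Real.exp_one_gt_d9]
    have h6 : 0 ≤ Real.log R := Real.log_nonneg hR0
    have h7 : (Nat.log 4 (4 * R ^ 2 + 1) : ℝ) ≤ (Nat.log 4 (4 * R ^ 2 + 1) : ℝ) * Real.log 4 :=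
      le_mul_of_one_le_right (Nat.cast_nonneg _) h4
    rw [hK]
    push_cast at h3 ⊢
    linarith
  calc ∑ k ∈ range K, ∑ y ∈ (BR R).filter (fun y => Nat.log 4 (nsq (y - c) + 1) = k), 1 / ds (y - c) ^ 3
      ≤ ∑ k ∈ range K, (64 : ℝ) := by
        refine Finset.sum_le_sum fun k _ => ?_
        have h1 : ∀ y ∈ (BR R).filter (fun y => Nat.log 4 (nsq (y - c) + 1) = k),
            1 / ds (y - c) ^ 3 ≤ 1 / (8 : ℝ) ^ k := by
          intro y hy
          rw [Finset.mem_filter] at hy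
          apply shell_bound
          rw [← hy.2]
          exact Nat.pow_log_le_self 4 (by omega)
        have h2 : ((BR R).filter (fun y => Nat.log 4 (nsq (y - c) + 1) = k)).card ≤ 64 * 8 ^ k := by
          refine (Finset.card_le_card ?_).trans (shell_card c (BR R) k)
          intro y hy
          rw [Finset.mem_filter] at hy ⊢
          refine ⟨hy.1, ?_⟩
          rw [← hy.2]
          exact Nat.lt_pow_succ_log_self (by norm_num) _
        calc ∑ y ∈ (BR R).filter (fun y => Nat.log 4 (nsq (y - c) + 1) = k), 1 / ds (y - c) ^ 3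
            ≤ ((BR R).filter (fun y => Nat.log 4 (nsq (y - c) + 1) = k)).card • (1 / (8 : ℝ) ^ k) :=
              Finset.sum_le_card_nsmul _ _ _ h1
          _ = (((BR R).filter (fun y => Nat.log 4 (nsq (y - c) + 1) = k)).card : ℝ) * (1 / (8 : ℝ) ^ k) := by
              rw [nsmul_eq_mul]
          _ ≤ ((64 * 8 ^ k : ℕ) : ℝ) * (1 / (8 : ℝ) ^ k) := by
              gcongr
          _ = 64 := by
              push_cast
              field_simp
    _ = K * 64 := by rw [Finset.sum_const, Finset.card_range, nsmul_eq_mul]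
    _ ≤ _ := by linarith

lemma ds_symm (x y : V) : ds (x - y) = ds (y - x) := by
  unfold ds
  rw [← nrm_sq, ← nrm_sq, ← neg_sub y x, Pool.Agent.K1H78.BI5.nrm_neg]

/-- `1 / (a b²) ≤ 1 / a³ + 1 / b³` -/
lemma amgm {a b : ℝ} (ha : 0 < a) (hb : 0 < b) : 1 / (a * b ^ 2) ≤ 1 / a ^ 3 + 1 / b ^ 3 := by
  rcases le_total a b with h | h
  · have : 1 / (a * b ^ 2) ≤ 1 / a ^ 3 := by
      apply one_div_le_one_div_of_le (by positivity)
      calc a ^ 3 = a * a ^ 2 := by ring
        _ ≤ a * b ^ 2 := by gcongr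
    have : 0 < 1 / b ^ 3 := by positivity
    linarith
  · have : 1 / (a * b ^ 2) ≤ 1 / b ^ 3 := by
      apply one_div_le_one_div_of_le (by positivity)
      calc b ^ 3 = b * b ^ 2 := by ring
        _ ≤ a * b ^ 2 := by gcongr
    have : 0 < 1 / a ^ 3 := by positivity
    linarith

lemma kap1 (H b : ℝ) : kap H (b ^ 2) ≤ 1 / b ^ 2 := min_le_left _ _

lemma kap2 (H b : ℝ) : kap H (b ^ 2) ≤ H ^ 2 / b ^ 4 := by
  refine (min_le_right _ _).trans (le_of_eq ?_)
  rw [← pow_mul]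

lemma kap3 {H b : ℝ} (hH : 0 < H) (hb : 0 < b) : kap H (b ^ 2) ≤ H / b ^ 3 := by
  rcases le_total H b with h | h
  · refine (kap2 H b).trans ?_
    rw [div_le_div_iff₀ (by positivity) (by positivity)]
    calc H ^ 2 * b ^ 3 = H * b ^ 3 * H := by ring
      _ ≤ H * b ^ 3 * b := by gcongr
      _ = _ := by ring
  · refine (kap1 H b).trans ?_
    rw [div_le_div_iff₀ (by positivity) (by positivity)]
    calc 1 * b ^ 3 = b * b ^ 2 := by ring
      _ ≤ H * b ^ 2 := by gcongr

lemma kap_nonneg (H D : ℝ) (hD : 0 ≤ D) : 0 ≤ kap H D := by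
  unfold kap
  positivity

/-- **Piece LS.** -/
theorem t_LS : S_LS := by
  intro hPOT hGU hU1
  obtain ⟨Cg, hCg, hG⟩ := hGU
  obtain ⟨C1, R1, hC1, hU⟩ := hU1
  refine ⟨6144 * Cg + 384 * C1 + 1024, max R1 1, by positivity, ?_⟩
  intro R G z hR hGr hz
  have hR1 : R1 ≤ R := le_trans (le_max_left _ _) hR
  have hR2 : 1 ≤ R := le_trans (le_max_right _ _) hR
  have hRr : (1 : ℝ) ≤ R := by exact_mod_cast hR2
  have hzB : z ∈ BR R := mem_BR.2 hz
  have hzR : nrm z ≤ R := by
    rw [nrm, ← Real.sqrt_sq (Nat.cast_nonneg (α := ℝ) R)]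
    exact Real.sqrt_le_sqrt (by exact_mod_cast hz)
  obtain ⟨H, hH⟩ : ∃ H : ℝ, H = (R : ℝ) + 1 - nrm z := ⟨_, rfl⟩
  have hH1 : 1 ≤ H := by rw [hH]; linarith
  have hH0 : 0 < H := by linarith
  obtain ⟨L, hL⟩ : ∃ L : ℝ, L = 1 + Real.log R := ⟨_, rfl⟩
  have hL1 : 1 ≤ L := by
    rw [hL]
    linarith [Real.log_nonneg hRr]
  have hb0 : ∀ y, 0 < ds (y - z) := fun y => ds_pos _
  rw [← hH, ← hL]
  -- basic sums
  have hs : ∀ x ∈ BR R, ∑ y ∈ BR R, 1 / ds (x - y) ^ 3 ≤ 192 * L := by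
    intro x hx
    have := star hR2 hx
    rw [← hL] at this
    refine le_trans (le_of_eq ?_) this
    exact Finset.sum_congr rfl fun y _ => by rw [ds_symm]
  have hsz : ∑ y ∈ BR R, 1 / ds (y - z) ^ 3 ≤ 192 * L := by
    have := star hR2 hzB
    rwa [← hL] at this
  have hs2 : ∀ x ∈ BR R, ∑ y ∈ BR R, 1 / (ds (x - y) * ds (y - z) ^ 2) ≤ 384 * L := by
    intro x hx
    calc ∑ y ∈ BR R, 1 / (ds (x - y) * ds (y - z) ^ 2)
        ≤ ∑ y ∈ BR R, (1 / ds (x - y) ^ 3 + 1 / ds (y - z) ^ 3) :=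
          Finset.sum_le_sum fun y _ => amgm (ds_pos _) (ds_pos _)
      _ = ∑ y ∈ BR R, 1 / ds (x - y) ^ 3 + ∑ y ∈ BR R, 1 / ds (y - z) ^ 3 := Finset.sum_add_distrib
      _ ≤ 384 * L := by linarith [hs x hx]
  have hGa : ∀ x y, G x y ≤ Cg / ds (x - y) := fun x y => hG R G hGr x y
  have hD : ∀ y : V, ((nsq (y - z) : ℝ) + 1) = ds (y - z) ^ 2 := fun y => (ds_sq _).symm
  have hkn : ∀ y : V, 0 ≤ kap H (ds (y - z) ^ 2) := fun y => kap_nonneg _ _ (by positivity)
  have first1 : ∀ x ∈ BR R, ∑ y ∈ BR R, G x y * kap H (ds (y - z) ^ 2) ≤ 384 * Cg * L := by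
    intro x hx
    calc ∑ y ∈ BR R, G x y * kap H (ds (y - z) ^ 2)
        ≤ ∑ y ∈ BR R, Cg * (1 / (ds (x - y) * ds (y - z) ^ 2)) := by
          refine Finset.sum_le_sum fun y _ => ?_
          calc G x y * kap H (ds (y - z) ^ 2) ≤ (Cg / ds (x - y)) * (1 / ds (y - z) ^ 2) :=
                mul_le_mul (hGa x y) (kap1 _ _) (hkn y) (div_nonneg hCg.le (ds_pos _).le)
            _ = _ := by
                have := ds_pos (x - y)
                have := hb0 y
                field_simp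
      _ = Cg * ∑ y ∈ BR R, 1 / (ds (x - y) * ds (y - z) ^ 2) := by rw [Finset.mul_sum]
      _ ≤ Cg * (384 * L) := mul_le_mul_of_nonneg_left (hs2 x hx) hCg.le
      _ = _ := by ring
  simp only [hD]
  refine ⟨?_, ?_, ?_⟩
  · intro x hx
    have hd0 : 0 < ds (x - z) := ds_pos _
    rw [Real.sqrt_sq (ds_pos _).le]
    have second1 : ∑ y ∈ BR R, G x y * kap H (ds (y - z) ^ 2) ≤ 576 * Cg * L * (H / ds (x - z)) := by
      rw [mul_div_assoc', le_div_iff₀ hd0, Finset.sum_mul]
      calc ∑ y ∈ BR R, G x y * kap H (ds (y - z) ^ 2) * ds (x - z)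
          ≤ ∑ y ∈ BR R, Cg * H * (1 / ds (y - z) ^ 3 + 1 / (ds (x - y) * ds (y - z) ^ 2)) := by
            refine Finset.sum_le_sum fun y _ => ?_
            have ha := ds_pos (x - y)
            have hb := hb0 y
            have htri : ds (x - z) ≤ ds (x - y) + ds (y - z) := by
              have := ds_add (x - y) (y - z)
              rwa [sub_add_sub_cancel] at this
            calc G x y * kap H (ds (y - z) ^ 2) * ds (x - z)
                ≤ (Cg / ds (x - y)) * (H / ds (y - z) ^ 3) * (ds (x - y) + ds (y - z)) := by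
                  refine mul_le_mul (mul_le_mul (hGa x y) (kap3 hH0 hb) (hkn y) ?_) htri hd0.le ?_
                  · positivity
                  · positivity
              _ = _ := by
                  field_simp
        _ = Cg * H * (∑ y ∈ BR R, 1 / ds (y - z) ^ 3 + ∑ y ∈ BR R, 1 / (ds (x - y) * ds (y - z) ^ 2)) := by
            rw [← Finset.mul_sum, Finset.sum_add_distrib]
        _ ≤ Cg * H * (576 * L) := by
            refine mul_le_mul_of_nonneg_left ?_ (by positivity)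
            linarith [hs2 x hx]
        _ = _ := by ring
    have h1 := first1 x hx
    rw [mul_min_of_nonneg _ _ (by positivity)]
    refine le_min ?_ ?_
    · refine h1.trans ?_
      rw [mul_one]
      have : 384 * Cg ≤ 6144 * Cg + 384 * C1 + 1024 := by linarith
      exact mul_le_mul_of_nonneg_right this (by linarith)
    · refine second1.trans ?_
      have : 576 * Cg ≤ 6144 * Cg + 384 * C1 + 1024 := by linarith
      exact mul_le_mul_of_nonneg_right (mul_le_mul_of_nonneg_right this (by linarith)) (by positivity)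
  · intro x hx
    calc ∑ y ∈ BR R, G x y * min 1 (H ^ 2 / ds (y - z) ^ 2)
        ≤ ∑ y ∈ BR R, Cg * H ^ 2 * (1 / (ds (x - y) * ds (y - z) ^ 2)) := by
          refine Finset.sum_le_sum fun y _ => ?_
          have ha := ds_pos (x - y)
          have hb := hb0 y
          calc G x y * min 1 (H ^ 2 / ds (y - z) ^ 2) ≤ (Cg / ds (x - y)) * (H ^ 2 / ds (y - z) ^ 2) :=
                mul_le_mul (hGa x y) (min_le_right _ _) (by positivity) (by positivity)
            _ = _ := by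
                field_simp
      _ = Cg * H ^ 2 * ∑ y ∈ BR R, 1 / (ds (x - y) * ds (y - z) ^ 2) := by rw [Finset.mul_sum]
      _ ≤ Cg * H ^ 2 * (384 * L) := mul_le_mul_of_nonneg_left (hs2 x hx) (by positivity)
      _ = 384 * Cg * L * H ^ 2 := by ring
      _ ≤ _ := by
          have : 384 * Cg ≤ 6144 * Cg + 384 * C1 + 1024 := by linarith
          exact mul_le_mul_of_nonneg_right (mul_le_mul_of_nonneg_right this (by linarith)) (by positivity)
  · have h0B : (0 : V) ∈ BR R := by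
      rw [mem_BR]
      simp [nsq]
    rcases lt_or_ge (nrm z) (3 / 4 * R) with hlt | hge
    · have h4 : (R : ℝ) ≤ 4 * H := by rw [hH]; linarith
      have h5 : 1 ≤ 16 * (H ^ 2 / (R : ℝ) ^ 2) := by
        rw [← mul_div_assoc, le_div_iff₀ (by positivity)]
        nlinarith
      refine (first1 0 h0B).trans ?_
      calc 384 * Cg * L ≤ 384 * Cg * L * (16 * (H ^ 2 / (R : ℝ) ^ 2)) :=
            le_mul_of_one_le_right (by positivity) h5
        _ = 6144 * Cg * L * (H ^ 2 / (R : ℝ) ^ 2) := by ring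
        _ ≤ (6144 * Cg + 384 * C1 + 1024) * L * (H ^ 2 / (R : ℝ) ^ 2) := by
            have : 6144 * Cg ≤ 6144 * Cg + 384 * C1 + 1024 := by linarith
            exact mul_le_mul_of_nonneg_right (mul_le_mul_of_nonneg_right this (by linarith)) (by positivity)
        _ = _ := by ring
    · have hpot := (hPOT R G hGr).2 0 h0B
      have hn0 : ((nsq (0 : V) : ℕ) : ℝ) = 0 := by simp [nsq]
      rw [hn0, sub_zero] at hpot
      have hpot2 : ∑ y ∈ BR R, G 0 y ≤ 4 * (R : ℝ) ^ 2 := by nlinarith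
      have key : ∀ y ∈ BR R, G 0 y * kap H (ds (y - z) ^ 2) ≤
          2 * C1 * H ^ 2 / (R : ℝ) ^ 2 * (1 / ds (y - z) ^ 3) + 256 * H ^ 2 / (R : ℝ) ^ 4 * G 0 y := by
        intro y hy
        have hb := hb0 y
        have hG0 := hGr.nonneg 0 y
        have hyn : nsq y ≤ R ^ 2 := mem_BR.1 hy
        have htri : nrm z ≤ nrm y + ds (y - z) := by
          have h1 := nrm_add_le y (-(y - z))
          rw [Pool.Agent.K1H78.BI5.nrm_neg] at h1
          have h2 : y + -(y - z) = z := by abel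
          rw [h2] at h1
          linarith [nrm_le_ds (y - z)]
        rcases le_or_gt (R ^ 2) (4 * nsq y) with hc | hc
        · have h1 := hU R G y 0 hR1 hGr hyn hc (by simp [nsq])
          rw [hGr.symm] at h1
          have h2 : G 0 y ≤ C1 * (H + ds (y - z)) / (R : ℝ) ^ 2 := by
            refine h1.trans ?_
            apply div_le_div_of_nonneg_right _ (by positivity)
            apply mul_le_mul_of_nonneg_left _ hC1.le
            rw [hH]
            linarith
          have h3 : (H + ds (y - z)) * kap H (ds (y - z) ^ 2) ≤ 2 * H ^ 2 * (1 / ds (y - z) ^ 3) := by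
            have h4 : H * kap H (ds (y - z) ^ 2) ≤ H * (H / ds (y - z) ^ 3) :=
              mul_le_mul_of_nonneg_left (kap3 hH0 hb) hH0.le
            have h5 : ds (y - z) * kap H (ds (y - z) ^ 2) ≤ ds (y - z) * (H ^ 2 / ds (y - z) ^ 4) :=
              mul_le_mul_of_nonneg_left (kap2 _ _) hb.le
            have h6 : ds (y - z) * (H ^ 2 / ds (y - z) ^ 4) = H ^ 2 * (1 / ds (y - z) ^ 3) := by
              field_simp
            have h7 : H * (H / ds (y - z) ^ 3) = H ^ 2 * (1 / ds (y - z) ^ 3) := by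
              field_simp
            rw [add_mul]
            linarith
          calc G 0 y * kap H (ds (y - z) ^ 2)
              ≤ C1 * (H + ds (y - z)) / (R : ℝ) ^ 2 * kap H (ds (y - z) ^ 2) :=
                mul_le_mul_of_nonneg_right h2 (hkn y)
            _ = C1 / (R : ℝ) ^ 2 * ((H + ds (y - z)) * kap H (ds (y - z) ^ 2)) := by ring
            _ ≤ C1 / (R : ℝ) ^ 2 * (2 * H ^ 2 * (1 / ds (y - z) ^ 3)) :=
                mul_le_mul_of_nonneg_left h3 (by positivity)
            _ = 2 * C1 * H ^ 2 / (R : ℝ) ^ 2 * (1 / ds (y - z) ^ 3) := by ring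
            _ ≤ _ := by
                have : 0 ≤ 256 * H ^ 2 / (R : ℝ) ^ 4 * G 0 y := by positivity
                linarith
        · have h1 : nrm y ≤ R / 2 := by
            have : (4 * nsq y : ℝ) ≤ (R : ℝ) ^ 2 := by exact_mod_cast hc.le
            refine le_of_sq_le_sq ?_ (by positivity)
            rw [nrm_sq]
            nlinarith
          have h2 : (R : ℝ) / 4 ≤ ds (y - z) := by linarith
          have h3 : kap H (ds (y - z) ^ 2) ≤ 256 * H ^ 2 / (R : ℝ) ^ 4 := by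
            refine (kap2 _ _).trans ?_
            have h4 : ((R : ℝ) / 4) ^ 4 ≤ ds (y - z) ^ 4 := pow_le_pow_left₀ (by positivity) h2 4
            calc H ^ 2 / ds (y - z) ^ 4 ≤ H ^ 2 / ((R : ℝ) / 4) ^ 4 := by
                  apply div_le_div_of_nonneg_left (by positivity) (by positivity) h4
              _ = _ := by
                  field_simp
                  norm_num
          calc G 0 y * kap H (ds (y - z) ^ 2) ≤ G 0 y * (256 * H ^ 2 / (R : ℝ) ^ 4) :=
                mul_le_mul_of_nonneg_left h3 hG0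
            _ = 256 * H ^ 2 / (R : ℝ) ^ 4 * G 0 y := mul_comm _ _
            _ ≤ _ := by
                have : 0 ≤ 2 * C1 * H ^ 2 / (R : ℝ) ^ 2 * (1 / ds (y - z) ^ 3) := by positivity
                linarith
      calc ∑ y ∈ BR R, G 0 y * kap H (ds (y - z) ^ 2)
          ≤ ∑ y ∈ BR R, (2 * C1 * H ^ 2 / (R : ℝ) ^ 2 * (1 / ds (y - z) ^ 3) +
              256 * H ^ 2 / (R : ℝ) ^ 4 * G 0 y) := Finset.sum_le_sum key
        _ = 2 * C1 * H ^ 2 / (R : ℝ) ^ 2 * ∑ y ∈ BR R, 1 / ds (y - z) ^ 3 +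
              256 * H ^ 2 / (R : ℝ) ^ 4 * ∑ y ∈ BR R, G 0 y := by
            rw [Finset.sum_add_distrib, ← Finset.mul_sum, ← Finset.mul_sum]
        _ ≤ 2 * C1 * H ^ 2 / (R : ℝ) ^ 2 * (192 * L) + 256 * H ^ 2 / (R : ℝ) ^ 4 * (4 * (R : ℝ) ^ 2) := by
            have h1 := mul_le_mul_of_nonneg_left hsz (by positivity : 0 ≤ 2 * C1 * H ^ 2 / (R : ℝ) ^ 2)
            have h2 := mul_le_mul_of_nonneg_left hpot2 (by positivity : 0 ≤ 256 * H ^ 2 / (R : ℝ) ^ 4)
            linarith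
        _ = (384 * C1 * L + 1024) * (H ^ 2 / (R : ℝ) ^ 2) := by
            field_simp
            ring
        _ ≤ ((6144 * Cg + 384 * C1 + 1024) * L) * (H ^ 2 / (R : ℝ) ^ 2) := by
            refine mul_le_mul_of_nonneg_right ?_ (by positivity)
            nlinarith [mul_nonneg hCg.le (by linarith : (0:ℝ) ≤ L)]
        _ = _ := by ring

end Pool.Agent.K1H40.BI5
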